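import Mathlib
import Pool.Agent.Q24.MS.Core

/-!
# Malle's conjecture: one field of a suitable group suffices

For every finite group `Y` there is a finite group `Γ` with the following property. Let `K` be a
number field and `G ≤ S_d` a group such that some quotient of `G` has a normal subgroup isomorphic to
`Γ`. If there is one field of degree `d` over `K` with Galois group `G`, then
`N(K, W; B) ~ c B` for `W = C₂ ≀ (X × S_n)`, `n` large, and for `W = C₂ ≀ X`, if `X` has a subgroup
`U` of index `u` with trivial normal core and `8 u (u + 1) ≤ |X|`. Here `X = Y` or, more generally,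
`X` has a normal subgroup `S`, solvable of a certain type, whose nilpotent residual `S_1` satisfies
`X / S_1 ≅ Y`.

Therefore Malle's conjecture for all groups `C₂ ≀ (X × S_n)` follows from its weakest qualitative
form: over every number field, every finite group is isomorphic to a normal subgroup of a quotient of
a permutation group which occurs at least once. The same is true over a single number field.
-/

set_option autoImplicit false

open Filter

namespace Pool.Agent.Results.MP_a3214d_nt.OneFieldSuffices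

/-- `G ≤ S_d` is, up to a bijection `f` of `{1, ..., d}` with `H × {0, 1}`, the wreath product
`C₂ ≀ H`: it consists of all permutations `π` for which there is `h ∈ H` such that `π` maps the block
`{x} × {0, 1}` to the block `{h x} × {0, 1}`, for all `x ∈ H`. -/
def IsC2Wreath (H : Type) [Group H] {d : ℕ} (G : Subgroup (Equiv.Perm (Fin d))) : Prop :=
  ∃ f : Fin d ≃ H × Bool, ∀ π : Equiv.Perm (Fin d), π ∈ G ↔ ∃ h : H, ∀ i, (f (π i)).1 = h * (f i).1

/-- The field `L`, between `K` and its algebraic closure, has degree `d` over `K`, and its Galois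
group, acting on the embeddings, is `G` (up to numbering). -/
def HasGroup (K : Type) [Field K] [NumberField K] (d : ℕ) (G : Subgroup (Equiv.Perm (Fin d)))
    (L : IntermediateField K (AlgebraicClosure K)) : Prop :=
  Module.finrank K L = d ∧
    ∃ e : (L →ₐ[K] AlgebraicClosure K) ≃ Fin d, ∀ π : Equiv.Perm (Fin d),
      π ∈ G ↔ ∃ σ : AlgebraicClosure K ≃ₐ[K] AlgebraicClosure K,
        ∀ φ : L →ₐ[K] AlgebraicClosure K, e (σ.toAlgHom.comp φ) = π (e φ)

/-- The fields `L` of degree `d` over `K` with Galois group `G` whose relative discriminant has norm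
at most `B` (that is, `|d_L| ≤ B |d_K| ^ d`). -/
def Ext (K : Type) [Field K] [NumberField K] (d : ℕ) (G : Subgroup (Equiv.Perm (Fin d)))
    (B : ℝ) : Set (IntermediateField K (AlgebraicClosure K)) :=
  {L | HasGroup K d G L ∧ ∃ h : NumberField L,
    ((|@NumberField.discr L _ h| : ℤ) : ℝ) ≤ B * ((|NumberField.discr K| : ℤ) : ℝ) ^ d}

/-- `N(K, G; B)`: the number of these fields up to `K`-isomorphism. -/
noncomputable def N (K : Type) [Field K] [NumberField K] (d : ℕ)
    (G : Subgroup (Equiv.Perm (Fin d))) (B : ℝ) : ℕ :=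
  Nat.card (Quot fun L L' : Ext K d G B => Nonempty (L.1 ≃ₐ[K] L'.1))

/-- The asymptotic formula `N(K, G; B) ~ c B ^ a (log B) ^ (b - 1)` over `K`, for some `c > 0` and
`b ≥ 1`. -/
def Asymptotic (K : Type) [Field K] [NumberField K] (a : ℝ) (d : ℕ)
    (G : Subgroup (Equiv.Perm (Fin d))) : Prop :=
  ∃ (c : ℝ) (b : ℕ), 0 < c ∧ 1 ≤ b ∧
    Tendsto (fun B : ℝ => (N K d G B : ℝ) / (B ^ a * Real.log B ^ (b - 1))) atTop (nhds c)

/-- The formula `N(K, G; B) ~ c B` over `K`, for some `c > 0`. -/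
def Linear (K : Type) [Field K] [NumberField K] (d : ℕ)
    (G : Subgroup (Equiv.Perm (Fin d))) : Prop :=
  ∃ c : ℝ, 0 < c ∧ Tendsto (fun B : ℝ => (N K d G B : ℝ) / B) atTop (nhds c)

/-- Malle's conjecture for `G` over `K`: the asymptotic formula for some `a > 0`. -/
def MalleAt (K : Type) [Field K] [NumberField K] (d : ℕ) (G : Subgroup (Equiv.Perm (Fin d))) :
    Prop :=
  ∃ a : ℝ, 0 < a ∧ Asymptotic K a d G

/-- Malle's conjecture for `G`, over all number fields: there is `a > 0` such that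
for every number field `K` there are `c > 0` and `b ≥ 1` with
`N(K, G; B) ~ c B ^ a (log B) ^ (b - 1)`. -/
def Malle (d : ℕ) (G : Subgroup (Equiv.Perm (Fin d))) : Prop :=
  ∃ a : ℝ, 0 < a ∧ ∀ (K : Type) [Field K] [NumberField K], Asymptotic K a d G

/-- The wreath product `C₂ ≀ H`, `H` in its regular action, satisfies `P` (as a subgroup `G` of
`S_d`, `d = 2 |H|`, for every numbering of `H × {0, 1}`). -/
def OrderTwo (H : Type) [Group H]
    (P : ∀ d : ℕ, Subgroup (Equiv.Perm (Fin d)) → Prop) : Prop :=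
  ∀ (d : ℕ) (G : Subgroup (Equiv.Perm (Fin d))), IsC2Wreath H G → P d G

/-- `P` holds for all groups `C₂ ≀ (X × S_n)`, `X` a finite group, `n ≥ |X|`, `n ≥ 120^3`. -/
def AllProducts (P : ∀ d : ℕ, Subgroup (Equiv.Perm (Fin d)) → Prop) : Prop :=
  ∀ (X : Type) [Group X] [Finite X] (n : ℕ), 120 ^ 3 ≤ n → Nat.card X ≤ n →
    OrderTwo (X × Equiv.Perm (Fin n)) P

/-- The nilpotent residual of the subgroup `S`: the intersection of its lower central series
`S, [S, S], [[S, S], S], ...`. -/
def nilpotentResidual {X : Type} [Group X] (S : Subgroup X) : Subgroup X :=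
  ⨅ n : ℕ, S.lowerCentralSeries n

/-- The iterated nilpotent residuals of `S`. -/
def residuals {X : Type} [Group X] (S : Subgroup X) : ℕ → Subgroup X
  | 0 => S
  | i + 1 => nilpotentResidual (residuals S i)

instance nilpotentResidual_normal {X : Type} [Group X] (S : Subgroup X) [S.Normal] :
    (nilpotentResidual S).Normal :=
  Subgroup.normal_iInf_normal fun _ => inferInstance

/-- The condition on `S`: its iterated nilpotent residuals reach the trivial group, and from the
first one on their quotients are abelian. -/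
def Tame {X : Type} [Group X] (S : Subgroup X) : Prop :=
  (∃ k, residuals S k = ⊥) ∧
    ∀ i, 1 ≤ i → ⁅residuals S i, residuals S i⁆ ≤ residuals S (i + 1)

/-- `Γ` is isomorphic to a normal subgroup of a quotient of `G`. -/
def NormalInQuotient (Γ G : Type) [Group Γ] [Group G] : Prop :=
  ∃ M : Subgroup G, ∃ _ : M.Normal, ∃ S : Subgroup (G ⧸ M), S.Normal ∧ Nonempty (Γ ≃* S)

/-- The finite group `G` is the Galois group of a finite Galois extension of `K`. -/
def Realizable (K G : Type) [Field K] [Group G] : Prop :=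
  ∃ (L : Type) (_ : Field L) (_ : Algebra K L) (_ : FiniteDimensional K L) (_ : IsGalois K L),
    Nonempty (G ≃* (L ≃ₐ[K] L))

theorem card_quot_congr {α : Type*} {s t : Set α} (h : s = t) (r : α → α → Prop) :
    Nat.card (Quot fun x y : s => r x.1 y.1) = Nat.card (Quot fun x y : t => r x.1 y.1) := by
  subst h
  rfl

theorem N_eq (K : Type) [Field K] [NumberField K] (d : ℕ) (G : Subgroup (Equiv.Perm (Fin d)))
    (B : ℝ) : N K d G B = Nat.card (Quot fun L L' : {L : IntermediateField K (AlgebraicClosure K) |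
      Module.finrank K L = d ∧
      (∃ e : (L →ₐ[K] AlgebraicClosure K) ≃ Fin d, ∀ π : Equiv.Perm (Fin d),
        π ∈ G ↔ ∃ σ : AlgebraicClosure K ≃ₐ[K] AlgebraicClosure K,
          ∀ φ : L →ₐ[K] AlgebraicClosure K, e (σ.toAlgHom.comp φ) = π (e φ)) ∧
      ∃ h : NumberField L,
        ((|@NumberField.discr L _ h| : ℤ) : ℝ) ≤ B * ((|NumberField.discr K| : ℤ) : ℝ) ^ d} =>
          Nonempty (L.1 ≃ₐ[K] L'.1)) := by
  unfold N
  refine card_quot_congr ?_ fun L L' : IntermediateField K (AlgebraicClosure K) =>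
    Nonempty (L ≃ₐ[K] L')
  ext L
  exact and_assoc

theorem of_data (K : Type) [Field K] [NumberField K] (H : Type) [Group H] [Finite H]
    (h2 : 2 ≤ Nat.card H) (U : Subgroup H) (hU : U.normalCore = ⊥)
    (hc : 8 * U.index * (U.index + 1) ≤ Nat.card H)
    (hne : (Pool.Agent.TH444.ML.Gal K (AlgebraicClosure K) H).Nonempty) :
    OrderTwo H (Linear K) := by
  intro d G hG
  obtain ⟨c, hc0, hlim⟩ :=
    Pool.Agent.TH444.ML.asymp_iso Pool.Agent.TH444.ML.rest K H h2 U hU hc hne G hG
  refine ⟨c, hc0, ?_⟩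
  simp only [N_eq]
  exact hlim

/-- The formula for `C₂ ≀ (X × S_n)` and `C₂ ≀ X`, if `X` is a Galois group. -/
theorem of_real (K : Type) [Field K] [NumberField K] (X : Type) [Group X] [Finite X]
    (h : Realizable K X) :
    (∀ n : ℕ, 120 ^ 3 ≤ n → Nat.card X ≤ n → OrderTwo (X × Equiv.Perm (Fin n)) (Linear K)) ∧
    (∀ U : Subgroup X, U.normalCore = ⊥ → 8 * U.index * (U.index + 1) ≤ Nat.card X →
      OrderTwo X (Linear K)) := by
  refine ⟨fun n hn hX => ?_, fun U hU hc => ?_⟩
  · obtain ⟨h2, U, hU, hc⟩ := Pool.Agent.Q24.ML.core_prod X n (le_trans (by norm_num) hn) hX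
    exact of_data K _ h2 U hU hc ((Pool.Agent.Q24.ML.real_iff K (AlgebraicClosure K) _).1
      ((Pool.Agent.Q24.ML.real_iff_prod K n hn).2 h))
  · have h1 : 1 ≤ U.index := Nat.one_le_iff_ne_zero.2 Subgroup.index_ne_zero_of_finite
    have h2 : 2 ≤ Nat.card X := by nlinarith
    exact of_data K _ h2 U hU hc ((Pool.Agent.Q24.ML.real_iff K (AlgebraicClosure K) _).1 h)

lemma residuals_eq {X : Type} [Group X] (S : Subgroup X) :
    ∀ i, residuals S i = Pool.Agent.Q24.ML.ress S i
  | 0 => rfl
  | i + 1 => by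
    change Pool.Agent.Q24.ML.nres (residuals S i) = Pool.Agent.Q24.ML.nres _
    rw [residuals_eq S i]

theorem real_of_tame (K : Type) [Field K] [NumberField K] {X : Type} [Group X] [Finite X]
    (S : Subgroup X) [S.Normal] (h : Tame S) (hK : Realizable K (X ⧸ nilpotentResidual S)) :
    Realizable K X := by
  obtain ⟨⟨k, hk⟩, h2⟩ := h
  exact (Pool.Agent.Q24.ML.real_iff_quot K _ (Pool.Agent.Q24.ML.clsBy_nres S
    ⟨k, by rw [← residuals_eq]; exact hk⟩
    (fun i hi => by rw [← residuals_eq, ← residuals_eq]; exact h2 i hi))).2 hK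

/-- The trivial subgroup satisfies the condition. -/
theorem tame_bot (X : Type) [Group X] : Tame (⊥ : Subgroup X) ∧
    nilpotentResidual (⊥ : Subgroup X) = ⊥ := by
  have h1 : nilpotentResidual (⊥ : Subgroup X) = ⊥ := by
    rw [eq_bot_iff]
    exact iInf_le _ 0
  have h2 : ∀ i, residuals (⊥ : Subgroup X) i = ⊥ := by
    intro i
    induction i with
    | zero => rfl
    | succ i ih => rw [residuals, ih, h1]
  refine ⟨⟨⟨0, rfl⟩, fun i _ => ?_⟩, h1⟩
  rw [h2, h2]
  exact (Subgroup.commutator_le_left _ _)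

theorem malleAt_of_linear {K : Type} [Field K] [NumberField K] {d : ℕ}
    {G : Subgroup (Equiv.Perm (Fin d))} (h : Linear K d G) : Asymptotic K 1 d G := by
  obtain ⟨c, hc0, hlim⟩ := h
  refine ⟨c, 1, hc0, le_rfl, ?_⟩
  simpa using hlim

/-- A group with the asymptotic formula occurs. -/
theorem occurs_of_asymptotic {K : Type} [Field K] [NumberField K] {a : ℝ} {d : ℕ}
    {G : Subgroup (Equiv.Perm (Fin d))} (h : Asymptotic K a d G) : ∃ L, HasGroup K d G L := by
  obtain ⟨c, b, hc, hb, hlim⟩ := h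
  obtain ⟨B, hB⟩ := (hlim.eventually (lt_mem_nhds hc)).exists
  have h1 : N K d G B ≠ 0 := by
    intro h0
    rw [h0] at hB
    simp at hB
  have h2 : Nonempty (Quot fun L L' : Ext K d G B => Nonempty (L.1 ≃ₐ[K] L'.1)) :=
    (Nat.card_pos_iff.1 (Nat.pos_of_ne_zero h1)).1
  obtain ⟨q⟩ := h2
  obtain ⟨⟨L, hL⟩, -⟩ := Quot.exists_rep q
  exact ⟨L, hL.1⟩

/-- For every `Γ` there is a group `C₂ ≀ (Γ × S_n)` of the family, and `Γ` is a quotient. -/
theorem exists_member {P : ∀ d : ℕ, Subgroup (Equiv.Perm (Fin d)) → Prop} (h : AllProducts P)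
    (Γ : Type) [Group Γ] [Finite Γ] :
    ∃ (d : ℕ) (G : Subgroup (Equiv.Perm (Fin d))), NormalInQuotient Γ G ∧ P d G := by
  have hn : 120 ^ 3 ≤ max (120 ^ 3) (Nat.card Γ) := le_max_left _ _
  have hX : Nat.card Γ ≤ max (120 ^ 3) (Nat.card Γ) := le_max_right _ _
  generalize max (120 ^ 3) (Nat.card Γ) = n at hn hX
  obtain ⟨d, G, -, hG, -⟩ := Pool.Agent.Q24.ML.exists_group (Γ × Equiv.Perm (Fin n))
  obtain ⟨p, hp⟩ := Pool.Agent.Q24.MS.exists_proj hG
  refine ⟨d, G, ?_, h Γ n hn hX d G hG⟩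
  exact Pool.Agent.Q24.MS.NormalInQuotient.of_surj ((MonoidHom.fst Γ _).comp p)
    (Prod.fst_surjective.comp hp)

/-- The inverse Galois problem from normal subgroups of quotients of groups which occur. -/
theorem igp_of_occurs (K : Type) [Field K] [NumberField K]
    (h : ∀ (Γ : Type) [Group Γ] [Finite Γ], ∃ (d : ℕ) (G : Subgroup (Equiv.Perm (Fin d))),
      NormalInQuotient Γ G ∧ ∃ L, HasGroup K d G L) (X : Type) [Group X] [Finite X] :
    Realizable K X := by
  obtain ⟨Γ, gΓ, hΓ, h1⟩ := Pool.Agent.Q24.MS.exists_gamma X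
  obtain ⟨d, G, hG, L, hL⟩ := h Γ
  exact Pool.Agent.Q24.MS.real_of_normal h1 hG (Pool.Agent.Q24.MS.real_of_hasGroup K hL)

/-- **One field suffices.** -/
theorem result :
    (∀ (Y : Type) [Group Y] [Finite Y], ∃ (Γ : Type) (_ : Group Γ), Finite Γ ∧
      ∀ (K : Type) [Field K] [NumberField K] (d : ℕ) (G : Subgroup (Equiv.Perm (Fin d))),
        NormalInQuotient Γ G → (∃ L, HasGroup K d G L) →
        ∀ (X : Type) [Group X] [Finite X] (S : Subgroup X) [S.Normal], Tame S →
        Nonempty (X ⧸ nilpotentResidual S ≃* Y) →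
        (∀ n : ℕ, 120 ^ 3 ≤ n → Nat.card X ≤ n →
          OrderTwo (X × Equiv.Perm (Fin n)) (Linear K)) ∧
        (∀ U : Subgroup X, U.normalCore = ⊥ → 8 * U.index * (U.index + 1) ≤ Nat.card X →
          OrderTwo X (Linear K))) ∧
    (∀ (X : Type) [Group X], Tame (⊥ : Subgroup X) ∧ nilpotentResidual (⊥ : Subgroup X) = ⊥) ∧
    (∀ (K : Type) [Field K] [NumberField K], List.TFAE [
      ∀ (Γ : Type) [Group Γ] [Finite Γ], ∃ (d : ℕ) (G : Subgroup (Equiv.Perm (Fin d))),
        NormalInQuotient Γ G ∧ ∃ L, HasGroup K d G L,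
      ∀ (Γ : Type) [Group Γ] [Finite Γ], ∃ (d : ℕ) (G : Subgroup (Equiv.Perm (Fin d))),
        NormalInQuotient Γ G ∧ MalleAt K d G,
      AllProducts (MalleAt K),
      AllProducts (Linear K),
      ∀ (X : Type) [Group X] [Finite X], Realizable K X]) ∧
    List.TFAE [
      ∀ (K : Type) [Field K] [NumberField K] (Γ : Type) [Group Γ] [Finite Γ],
        ∃ (d : ℕ) (G : Subgroup (Equiv.Perm (Fin d))),
          NormalInQuotient Γ G ∧ ∃ L, HasGroup K d G L,
      ∀ (Γ : Type) [Group Γ] [Finite Γ], ∃ (d : ℕ) (G : Subgroup (Equiv.Perm (Fin d))),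
        NormalInQuotient Γ G ∧ Malle d G,
      AllProducts Malle,
      AllProducts (fun d G => ∀ (K : Type) [Field K] [NumberField K], Linear K d G),
      ∀ (K : Type) [Field K] [NumberField K] (X : Type) [Group X] [Finite X],
        Realizable K X] := by
  refine ⟨fun Y _ _ => ?_, fun X _ => tame_bot X, fun K _ _ => ?_, ?_⟩
  · obtain ⟨Γ, gΓ, hΓ, h⟩ := Pool.Agent.Q24.MS.exists_gamma Y
    refine ⟨Γ, gΓ, hΓ, fun K _ _ d G hG ⟨L, hL⟩ X _ _ S _ hS ⟨e⟩ => of_real K X ?_⟩
    have h1 : Realizable K Y :=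
      Pool.Agent.Q24.MS.real_of_normal h hG (Pool.Agent.Q24.MS.real_of_hasGroup K hL)
    exact real_of_tame K S hS (Pool.Agent.Q24.ML.Real.congr e.symm h1)
  · tfae_have 5 → 4 := fun h X _ _ n hn hX => (of_real K X (h X)).1 n hn hX
    tfae_have 4 → 3 := fun h X _ _ n hn hX d G hG =>
      ⟨1, one_pos, malleAt_of_linear (h X n hn hX d G hG)⟩
    tfae_have 3 → 2 := fun h Γ _ _ => exists_member h Γ
    tfae_have 2 → 1 := by
      intro h Γ _ _
      obtain ⟨d, G, h1, a, -, h2⟩ := h Γ
      exact ⟨d, G, h1, occurs_of_asymptotic h2⟩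
    tfae_have 1 → 5 := fun h X _ _ => igp_of_occurs K h X
    tfae_finish
  · tfae_have 5 → 4 := fun h X _ _ n hn hX d G hG K _ _ =>
      (of_real K X (h K X)).1 n hn hX d G hG
    tfae_have 4 → 3 := fun h X _ _ n hn hX d G hG =>
      ⟨1, one_pos, fun K _ _ => malleAt_of_linear (h X n hn hX d G hG K)⟩
    tfae_have 3 → 2 := fun h Γ _ _ => exists_member h Γ
    tfae_have 2 → 1 := by
      intro h K _ _ Γ _ _
      obtain ⟨d, G, h1, a, -, h2⟩ := h Γ
      exact ⟨d, G, h1, occurs_of_asymptotic (h2 K)⟩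
    tfae_have 1 → 5 := fun h K _ _ X _ _ => igp_of_occurs K (h K) X
    tfae_finish

end Pool.Agent.Results.MP_a3214d_nt.OneFieldSuffices
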