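import Mathlib
import Pool.Agent.Q24.ML.Iff

/-!
# Malle's conjecture for `C₂ ≀ X` and nilpotent residuals

Let `X` be a finite group and `S` a normal subgroup of `X` whose iterated nilpotent residuals
`S = S_0 ≥ S_1 ≥ S_2 ≥ ...` reach the trivial group, with `S_i / S_(i+1)` abelian for `i ≥ 1` (for
instance: `S` solvable with abelian Sylow subgroups, when `S_1 = [S, S]`; or `S_1` abelian).
Let `H = X × S_n` with `n ≥ |X|`, `n ≥ 120^3`, or let `H = X`, if `X` has a subgroup `U` of index
`u` with trivial normal core and `8 u (u + 1) ≤ |X|`. Then Malle's conjecture, over all number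
fields, holds for `C₂ ≀ H`, acting on `H × {0, 1}`, if and only if `X / S_1` is a Galois group over
every number field. It also holds over a single number field `K` if and only if `X / S_1` is a Galois
group over `K`. It therefore holds if `X / S_1` is isomorphic to `A ≀ S_m`, `A` any finite group,
`m ≥ ((3 |A| + 2)!)^3`.
-/

set_option autoImplicit false

open Filter
open Pool.Agent.H391R2 (Wr)

namespace Pool.Agent.Results.MP_a3214d_nt.OrderTwoResiduals

/-- `G ≤ S_d` is, up to a bijection `f` of `{1, ..., d}` with `H × {0, 1}`, the wreath product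
`C₂ ≀ H`: it consists of all permutations `π` for which there is `h ∈ H` such that `π` maps the block
`{x} × {0, 1}` to the block `{h x} × {0, 1}`, for all `x ∈ H`. -/
def IsC2Wreath (H : Type) [Group H] {d : ℕ} (G : Subgroup (Equiv.Perm (Fin d))) : Prop :=
  ∃ f : Fin d ≃ H × Bool, ∀ π : Equiv.Perm (Fin d), π ∈ G ↔ ∃ h : H, ∀ i, (f (π i)).1 = h * (f i).1

/-- The fields `L` between `K` and its algebraic closure, of degree `d` over `K`, whose Galois group,
acting on the embeddings, is `G` (up to numbering), and whose relative discriminant has norm at most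
`B` (that is, `|d_L| ≤ B |d_K| ^ d`). -/
def Ext (K : Type) [Field K] [NumberField K] (d : ℕ) (G : Subgroup (Equiv.Perm (Fin d)))
    (B : ℝ) : Set (IntermediateField K (AlgebraicClosure K)) :=
  {L | Module.finrank K L = d ∧
    (∃ e : (L →ₐ[K] AlgebraicClosure K) ≃ Fin d, ∀ π : Equiv.Perm (Fin d),
      π ∈ G ↔ ∃ σ : AlgebraicClosure K ≃ₐ[K] AlgebraicClosure K,
        ∀ φ : L →ₐ[K] AlgebraicClosure K, e (σ.toAlgHom.comp φ) = π (e φ)) ∧
    ∃ h : NumberField L,
      ((|@NumberField.discr L _ h| : ℤ) : ℝ) ≤ B * ((|NumberField.discr K| : ℤ) : ℝ) ^ d}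

/-- `N(K, G; B)`: the number of these fields up to `K`-isomorphism. -/
noncomputable def N (K : Type) [Field K] [NumberField K] (d : ℕ)
    (G : Subgroup (Equiv.Perm (Fin d))) (B : ℝ) : ℕ :=
  Nat.card (Quot fun L L' : Ext K d G B => Nonempty (L.1 ≃ₐ[K] L'.1))

/-- The asymptotic formula `N(K, G; B) ~ c B ^ a (log B) ^ (b - 1)` over `K`, for some `c > 0` and
`b ≥ 1`. -/
def Asymptotic (K : Type) [Field K] [NumberField K] (a : ℝ) (d : ℕ)
    (G : Subgroup (Equiv.Perm (Fin d))) : Prop :=
  ∃ (c : ℝ) (b : ℕ), 0 < c ∧ 1 ≤ b ∧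
    Tendsto (fun B : ℝ => (N K d G B : ℝ) / (B ^ a * Real.log B ^ (b - 1))) atTop (nhds c)

/-- The formula `N(K, G; B) ~ c B` over `K`, for some `c > 0`. -/
def Linear (K : Type) [Field K] [NumberField K] (d : ℕ)
    (G : Subgroup (Equiv.Perm (Fin d))) : Prop :=
  ∃ c : ℝ, 0 < c ∧ Tendsto (fun B : ℝ => (N K d G B : ℝ) / B) atTop (nhds c)

/-- Malle's conjecture for `G` over `K`: the asymptotic formula for some `a > 0`. -/
def MalleAt (K : Type) [Field K] [NumberField K] (d : ℕ) (G : Subgroup (Equiv.Perm (Fin d))) :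
    Prop :=
  ∃ a : ℝ, 0 < a ∧ Asymptotic K a d G

/-- Malle's conjecture for `G`, over all number fields: there is `a > 0` such that
for every number field `K` there are `c > 0` and `b ≥ 1` with
`N(K, G; B) ~ c B ^ a (log B) ^ (b - 1)`. -/
def Malle (d : ℕ) (G : Subgroup (Equiv.Perm (Fin d))) : Prop :=
  ∃ a : ℝ, 0 < a ∧ ∀ (K : Type) [Field K] [NumberField K], Asymptotic K a d G

/-- The wreath product `C₂ ≀ H`, `H` in its regular action, satisfies `P` (as a subgroup `G` of
`S_d`, `d = 2 |H|`, for every numbering of `H × {0, 1}`). -/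
def OrderTwo (H : Type) [Group H]
    (P : ∀ d : ℕ, Subgroup (Equiv.Perm (Fin d)) → Prop) : Prop :=
  ∀ (d : ℕ) (G : Subgroup (Equiv.Perm (Fin d))), IsC2Wreath H G → P d G

/-- The finite group `G` is the Galois group of a finite Galois extension of `K`. -/
def Realizable (K G : Type) [Field K] [Group G] : Prop :=
  ∃ (L : Type) (_ : Field L) (_ : Algebra K L) (_ : FiniteDimensional K L) (_ : IsGalois K L),
    Nonempty (G ≃* (L ≃ₐ[K] L))

/-- Malle's conjecture for `C₂ ≀ H` is equivalent to the realizability of `Y` over all number fields;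
over each number field `K`, it is equivalent to the realizability of `Y` over `K`, and to the formula
`N(K, G; B) ~ c B`. -/
def Decided (H Y : Type) [Group H] [Group Y] : Prop :=
  (OrderTwo H Malle ↔ ∀ (K : Type) [Field K] [NumberField K], Realizable K Y) ∧
  ∀ (K : Type) [Field K] [NumberField K],
    (OrderTwo H (MalleAt K) ↔ Realizable K Y) ∧ (OrderTwo H (Linear K) ↔ Realizable K Y)

/-- Malle's conjecture for `C₂ ≀ H` and the realizability of `Y` are equivalent, for `H = X × S_n`
with `n ≥ |X|`, `n ≥ 120^3`, and for `H = X`, if `X` has a subgroup `U` of index `u` with trivial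
normal core and `8 u (u + 1) ≤ |X|`. -/
def Governs (X Y : Type) [Group X] [Group Y] : Prop :=
  (∀ n : ℕ, 120 ^ 3 ≤ n → Nat.card X ≤ n → Decided (X × Equiv.Perm (Fin n)) Y) ∧
  (∀ U : Subgroup X, U.normalCore = ⊥ → 8 * U.index * (U.index + 1) ≤ Nat.card X →
    Decided X Y)

/-- The nilpotent residual of the subgroup `S`: the intersection of its lower central series
`S, [S, S], [[S, S], S], ...`. -/
def nilpotentResidual {X : Type} [Group X] (S : Subgroup X) : Subgroup X :=
  ⨅ n : ℕ, S.lowerCentralSeries n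

/-- The iterated nilpotent residuals of `S`. -/
def residuals {X : Type} [Group X] (S : Subgroup X) : ℕ → Subgroup X
  | 0 => S
  | i + 1 => nilpotentResidual (residuals S i)

instance nilpotentResidual_normal {X : Type} [Group X] (S : Subgroup X) [S.Normal] :
    (nilpotentResidual S).Normal :=
  Subgroup.normal_iInf_normal fun _ => inferInstance

/-- The condition on `S`: its iterated nilpotent residuals reach the trivial group, and from the
first one on their quotients are abelian. -/
def Tame {X : Type} [Group X] (S : Subgroup X) : Prop :=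
  (∃ k, residuals S k = ⊥) ∧
    ∀ i, 1 ≤ i → ⁅residuals S i, residuals S i⁆ ≤ residuals S (i + 1)

lemma residuals_eq {X : Type} [Group X] (S : Subgroup X) :
    ∀ i, residuals S i = Pool.Agent.Q24.ML.ress S i
  | 0 => rfl
  | i + 1 => by
    change Pool.Agent.Q24.ML.nres (residuals S i) = Pool.Agent.Q24.ML.nres _
    rw [residuals_eq S i]

theorem of_data (K : Type) [Field K] [NumberField K] (H : Type) [Group H] [Finite H]
    (h2 : 2 ≤ Nat.card H) (U : Subgroup H) (hU : U.normalCore = ⊥)
    (hc : 8 * U.index * (U.index + 1) ≤ Nat.card H)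
    (hne : (Pool.Agent.TH444.ML.Gal K (AlgebraicClosure K) H).Nonempty) :
    OrderTwo H (Linear K) := fun _ G hG =>
  Pool.Agent.TH444.ML.asymp_iso Pool.Agent.TH444.ML.rest K H h2 U hU hc hne G hG

theorem asymptotic_of_linear {K : Type} [Field K] [NumberField K] {d : ℕ}
    {G : Subgroup (Equiv.Perm (Fin d))} (h : Linear K d G) : Asymptotic K 1 d G := by
  obtain ⟨c, hc0, hlim⟩ := h
  refine ⟨c, 1, hc0, le_rfl, ?_⟩
  simpa using hlim

theorem real_of_malleAt (K : Type) [Field K] [NumberField K] (H : Type) [Group H] [Finite H]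
    (h : OrderTwo H (MalleAt K)) : Realizable K H := by
  obtain ⟨d, G, -, hG, -⟩ := Pool.Agent.Q24.ML.exists_group H
  obtain ⟨a, ha, c, b, hc, hb, hlim⟩ := h d G hG
  obtain ⟨B, hB⟩ := (hlim.eventually (lt_mem_nhds hc)).exists
  have h1 : N K d G B ≠ 0 := by
    intro h0
    rw [h0] at hB
    simp at hB
  have h2 : Nonempty (Quot fun L L' : Ext K d G B => Nonempty (L.1 ≃ₐ[K] L'.1)) :=
    (Nat.card_pos_iff.1 (Nat.pos_of_ne_zero h1)).1
  obtain ⟨q⟩ := h2
  obtain ⟨⟨L, hL⟩, -⟩ := Quot.exists_rep q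
  exact Pool.Agent.Q24.ML.real_of_cnt K hG B ⟨L, hL⟩

theorem decided (H Y : Type) [Group H] [Finite H] [Group Y]
    (h2 : 2 ≤ Nat.card H) (U : Subgroup H) (hU : U.normalCore = ⊥)
    (hc : 8 * U.index * (U.index + 1) ≤ Nat.card H)
    (hr : ∀ (K : Type) [Field K] [NumberField K],
      Pool.Agent.Q24.ML.Real K H ↔ Pool.Agent.Q24.ML.Real K Y) : Decided H Y := by
  have h1 : ∀ (K : Type) [Field K] [NumberField K], Realizable K Y → OrderTwo H (Linear K) :=
    fun K _ _ h => of_data K H h2 U hU hc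
      ((Pool.Agent.Q24.ML.real_iff K (AlgebraicClosure K) H).1 ((hr K).2 h))
  have h3 : ∀ (K : Type) [Field K] [NumberField K], OrderTwo H (Linear K) →
      OrderTwo H (MalleAt K) := fun K _ _ h d G hG =>
    ⟨1, one_pos, asymptotic_of_linear (h d G hG)⟩
  have h4 : ∀ (K : Type) [Field K] [NumberField K], OrderTwo H (MalleAt K) → Realizable K Y :=
    fun K _ _ h => (hr K).1 (real_of_malleAt K H h)
  refine ⟨⟨fun h K _ _ => h4 K fun d G hG => ?_, fun h d G hG => ?_⟩, fun K _ _ =>
    ⟨⟨h4 K, fun h => h3 K (h1 K h)⟩, ⟨fun h => h4 K (h3 K h), h1 K⟩⟩⟩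
  · obtain ⟨a, ha, h5⟩ := h d G hG
    exact ⟨a, ha, h5 K⟩
  · exact ⟨1, one_pos, fun K _ _ => asymptotic_of_linear (h1 K (h K) d G hG)⟩

theorem governs {X : Type} [Group X] [Finite X] (M : Subgroup X) [M.Normal]
    (h : Pool.Agent.Q24.ML.ClsBy M) : Governs X (X ⧸ M) := by
  have hr := fun (K : Type) [Field K] [NumberField K] => Pool.Agent.Q24.ML.real_iff_quot K M h
  refine ⟨fun n hn hX => ?_, fun U hU hc => ?_⟩
  · obtain ⟨h2, U, hU, hc⟩ := Pool.Agent.Q24.ML.core_prod X n (le_trans (by norm_num) hn) hX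
    exact decided _ _ h2 U hU hc fun K _ _ => (Pool.Agent.Q24.ML.real_iff_prod K n hn).trans (hr K)
  · have h1 : 1 ≤ U.index := Nat.one_le_iff_ne_zero.2 Subgroup.index_ne_zero_of_finite
    have h2 : 2 ≤ Nat.card X := by nlinarith
    exact decided _ _ h2 U hU hc fun K _ _ => hr K

theorem governs_residual {X : Type} [Group X] [Finite X] (S : Subgroup X) [S.Normal]
    (h : Tame S) : Governs X (X ⧸ nilpotentResidual S) := by
  apply governs
  obtain ⟨⟨k, hk⟩, h2⟩ := h
  exact Pool.Agent.Q24.ML.clsBy_nres S ⟨k, by rw [← residuals_eq]; exact hk⟩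
    (fun i hi => by rw [← residuals_eq, ← residuals_eq]; exact h2 i hi)

end Pool.Agent.Results.MP_a3214d_nt.OrderTwoResiduals

open Pool.Agent.Results.MP_a3214d_nt.OrderTwoResiduals in
/-- Malle's conjecture for `C₂ ≀ (X × S_n)` and `C₂ ≀ X` is equivalent to the realizability
of `X / S_1` over all number fields (first three parts), and holds if `X / S_1` is a wreath
product `A ≀ S_m` with `m` large (last part). -/
theorem Pool.Agent.Results.MP_a3214d_nt.OrderTwoResiduals.result :
    (∀ (X : Type) [Group X] [Finite X] (S : Subgroup X) [S.Normal], Tame S →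
      Governs X (X ⧸ nilpotentResidual S)) ∧
    (∀ (X : Type) [Group X] [Finite X] (S : Subgroup X) [S.Normal], Group.IsSolvable S →
      (∀ (p : ℕ) [Fact p.Prime] (P : Sylow p S), ∀ x ∈ P, ∀ y ∈ P, x * y = y * x) →
      Governs X (X ⧸ ⁅S, S⁆)) ∧
    (∀ (X : Type) [Group X] [Finite X] (S : Subgroup X) [S.Normal],
      (∀ x ∈ nilpotentResidual S, ∀ y ∈ nilpotentResidual S, x * y = y * x) →
      Governs X (X ⧸ nilpotentResidual S)) ∧
    (∀ (X : Type) [Group X] [Finite X] (S : Subgroup X) [S.Normal], Tame S →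
      ∀ (A : Type) [Group A] [Finite A] (m : ℕ), ((3 * Nat.card A + 2).factorial) ^ 3 ≤ m →
      Nonempty (X ⧸ nilpotentResidual S ≃* Wr A m) →
      (∀ n : ℕ, 120 ^ 3 ≤ n → Nat.card X ≤ n → OrderTwo (X × Equiv.Perm (Fin n)) Malle) ∧
      (∀ U : Subgroup X, U.normalCore = ⊥ → 8 * U.index * (U.index + 1) ≤ Nat.card X →
        OrderTwo X Malle)) := by
  refine ⟨fun X _ _ S _ h => governs_residual S h,
    fun X _ _ S _ h1 h2 => governs _ (Pool.Agent.Q24.ML.clsBy_sylow S h1 h2),
    fun X _ _ S _ h => governs _ (Pool.Agent.Q24.ML.clsBy_abel S h), ?_⟩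
  intro X _ _ S _ h A _ _ m hm ⟨e⟩
  obtain ⟨h1, h2⟩ := governs_residual S h
  have h3 : ∀ (K : Type) [Field K] [NumberField K], Realizable K (X ⧸ nilpotentResidual S) := by
    intro K _ _
    obtain ⟨-, -, hne⟩ := Pool.Agent.TH444.ML.wr_data K A m hm
    exact ((Pool.Agent.Q24.ML.real_iff K (AlgebraicClosure K) _).2 hne).congr e.symm
  exact ⟨fun n hn hX => (h1 n hn hX).1.2 h3, fun U hU hc => (h2 U hU hc).1.2 h3⟩
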