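import Mathlib
import Pool.Agent.Q17.ML2.Fin

/-!
# Malle's conjecture for transitive groups with a transposition and blocks of size two

Let `G ≤ S_n` be a transitive group which contains a transposition and has a system `B` of blocks of
size two. Then `G` is the wreath product `C₂ ≀ (H, Δ)`, where `H` is the transitive group which `G`
induces on the set `Δ` of the blocks. Assume that `G` has a second system `C` of blocks, each a union
of blocks in `B`, with `c` blocks, `16 c (c + 1) ≤ n`, such that an element of `G` which maps every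
block in `C` to itself does the same for `B`. Then Malle's conjecture holds for `G` over a number
field `K` if and only if `G` is a Galois group over `K`. `H` need not act regularly on `Δ`: for
instance `H = S_m` acting on the `k`-tuples of different elements of `{1, ..., m}`, `k ≥ 3`.
-/

set_option autoImplicit false

open Filter

namespace Pool.Agent.Results.MP_a3214d_nt.Transpositions

/-- The fields `L` between `K` and its algebraic closure, of degree `n` over `K`, whose Galois group,
acting on the embeddings, is `G` (up to numbering), and whose relative discriminant has norm at most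
`X` (that is, `|d_L| ≤ X |d_K| ^ n`). -/
def Ext (K : Type) [Field K] [NumberField K] (n : ℕ) (G : Subgroup (Equiv.Perm (Fin n)))
    (X : ℝ) : Set (IntermediateField K (AlgebraicClosure K)) :=
  {L | Module.finrank K L = n ∧
    (∃ e : (L →ₐ[K] AlgebraicClosure K) ≃ Fin n, ∀ π : Equiv.Perm (Fin n),
      π ∈ G ↔ ∃ σ : AlgebraicClosure K ≃ₐ[K] AlgebraicClosure K,
        ∀ φ : L →ₐ[K] AlgebraicClosure K, e (σ.toAlgHom.comp φ) = π (e φ)) ∧
    ∃ h : NumberField L,
      ((|@NumberField.discr L _ h| : ℤ) : ℝ) ≤ X * ((|NumberField.discr K| : ℤ) : ℝ) ^ n}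

/-- `N(K, G; X)`: the number of these fields up to `K`-isomorphism. -/
noncomputable def N (K : Type) [Field K] [NumberField K] (n : ℕ)
    (G : Subgroup (Equiv.Perm (Fin n))) (X : ℝ) : ℕ :=
  Nat.card (Quot fun L L' : Ext K n G X => Nonempty (L.1 ≃ₐ[K] L'.1))

/-- The asymptotic formula `N(K, G; X) ~ c X ^ a (log X) ^ (b - 1)` over `K`, for some `c > 0` and
`b ≥ 1`. -/
def Asymptotic (K : Type) [Field K] [NumberField K] (a : ℝ) (n : ℕ)
    (G : Subgroup (Equiv.Perm (Fin n))) : Prop :=
  ∃ (c : ℝ) (b : ℕ), 0 < c ∧ 1 ≤ b ∧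
    Tendsto (fun X : ℝ => (N K n G X : ℝ) / (X ^ a * Real.log X ^ (b - 1))) atTop (nhds c)

/-- The formula `N(K, G; X) ~ c X` over `K`, for some `c > 0`. -/
def Linear (K : Type) [Field K] [NumberField K] (n : ℕ)
    (G : Subgroup (Equiv.Perm (Fin n))) : Prop :=
  ∃ c : ℝ, 0 < c ∧ Tendsto (fun X : ℝ => (N K n G X : ℝ) / X) atTop (nhds c)

/-- Malle's conjecture for `G` over `K`: the asymptotic formula for some `a > 0`. -/
def MalleAt (K : Type) [Field K] [NumberField K] (n : ℕ) (G : Subgroup (Equiv.Perm (Fin n))) :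
    Prop :=
  ∃ a : ℝ, 0 < a ∧ Asymptotic K a n G

/-- Malle's conjecture for `G`, over all number fields: there is `a > 0` such that
for every number field `K` there are `c > 0` and `b ≥ 1` with
`N(K, G; X) ~ c X ^ a (log X) ^ (b - 1)`. -/
def Malle (n : ℕ) (G : Subgroup (Equiv.Perm (Fin n))) : Prop :=
  ∃ a : ℝ, 0 < a ∧ ∀ (K : Type) [Field K] [NumberField K], Asymptotic K a n G

/-- The finite group `X` is the Galois group of a finite Galois extension of `K`. -/
def Realizable (K X : Type) [Field K] [Group X] : Prop :=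
  ∃ (L : Type) (_ : Field L) (_ : Algebra K L) (_ : FiniteDimensional K L) (_ : IsGalois K L),
    Nonempty (X ≃* (L ≃ₐ[K] L))

/-- Malle's conjecture for `G` is equivalent to the realizability of `X` over all number fields; over
each number field `K` it is equivalent to the realizability of `X` over `K`, and to the formula
`N(K, G; X) ~ c X`. -/
def Decided (n : ℕ) (G : Subgroup (Equiv.Perm (Fin n))) (X : Type) [Group X] : Prop :=
  (Malle n G ↔ ∀ (K : Type) [Field K] [NumberField K], Realizable K X) ∧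
  ∀ (K : Type) [Field K] [NumberField K],
    (MalleAt K n G ↔ Realizable K X) ∧ (Linear K n G ↔ Realizable K X)

/-- The equivalence relation `B` is invariant under `G`: its classes are blocks. -/
def Invariant {n : ℕ} (G : Subgroup (Equiv.Perm (Fin n))) (B : Setoid (Fin n)) : Prop :=
  ∀ g ∈ G, ∀ i j, B i j → B (g i) (g j)

/-- `G` is transitive and contains a transposition, the classes of `B` are blocks of size two, and
the classes of `C ≥ B` are blocks; there are `c` of them, `16 c (c + 1) ≤ n`, and an element of `G`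
which maps all of them to themselves does the same for the classes of `B`. -/
def Cond {n : ℕ} (G : Subgroup (Equiv.Perm (Fin n))) (B C : Setoid (Fin n)) : Prop :=
  (∀ i j, ∃ g ∈ G, g i = j) ∧ (∃ i j, i ≠ j ∧ Equiv.swap i j ∈ G) ∧
  Invariant G B ∧ (∀ i, {j | B i j}.ncard = 2) ∧ Invariant G C ∧ B ≤ C ∧
  16 * Nat.card (Quotient C) * (Nat.card (Quotient C) + 1) ≤ n ∧
  ∀ g ∈ G, (∀ i, C i (g i)) → ∀ i, B i (g i)

/-- `G ≤ S_n` is, up to numbering, the wreath product `C₂ ≀ (H, Δ)`: the group of all permutations of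
`Δ × {0, 1}` for which there is `h ∈ H` such that they map the block `{x} × {0, 1}` to
`{act h x} × {0, 1}`, for all `x ∈ Δ`. -/
def IsWreath {H Δ : Type} (act : H → Δ → Δ) {n : ℕ} (G : Subgroup (Equiv.Perm (Fin n))) : Prop :=
  ∃ f : Fin n ≃ Δ × Bool, ∀ π : Equiv.Perm (Fin n), π ∈ G ↔ ∃ h : H, ∀ i, (f (π i)).1 = act h (f i).1

section proof

open Pool.Agent.Q17.ML2 (IsC2WrS parts)

theorem of_real (K : Type) [Field K] [NumberField K] {H : Type} [Group H] [Finite H]
    {W U : Subgroup H} (hWU : W ≤ U) (hU : U.normalCore = ⊥)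
    (hc : 8 * U.index * (U.index + 1) ≤ W.index) {n : ℕ} {G : Subgroup (Equiv.Perm (Fin n))}
    (hG : IsC2WrS H W G) (h : Realizable K H) : Linear K n G :=
  Pool.Agent.Q17.ML2.asymp_isoS parts K H W U hWU hU hc
    ((Pool.Agent.Q24.ML.real_iff K (AlgebraicClosure K) H).1 h) G hG

theorem asymptotic_of_linear {K : Type} [Field K] [NumberField K] {n : ℕ}
    {G : Subgroup (Equiv.Perm (Fin n))} (h : Linear K n G) : Asymptotic K 1 n G := by
  obtain ⟨c, hc0, hlim⟩ := h
  refine ⟨c, 1, hc0, le_rfl, ?_⟩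
  simpa using hlim

theorem of_malleAt (K : Type) [Field K] [NumberField K] {H : Type} [Group H] [Finite H]
    {W : Subgroup H} (hW : W.normalCore = ⊥) {n : ℕ} {G : Subgroup (Equiv.Perm (Fin n))}
    (hG : IsC2WrS H W G) (h : MalleAt K n G) : Realizable K H ∧ Realizable K G := by
  obtain ⟨a, ha, c, b, hc, hb, hlim⟩ := h
  obtain ⟨X, hX⟩ := (hlim.eventually (lt_mem_nhds hc)).exists
  have h1 : N K n G X ≠ 0 := by
    intro h0
    rw [h0] at hX
    simp at hX
  have h2 : Nonempty (Quot fun L L' : Ext K n G X => Nonempty (L.1 ≃ₐ[K] L'.1)) :=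
    (Nat.card_pos_iff.1 (Nat.pos_of_ne_zero h1)).1
  obtain ⟨q⟩ := h2
  obtain ⟨⟨L, hL⟩, -⟩ := Quot.exists_rep q
  exact ⟨Pool.Agent.Q17.ML2.real_of_cntS parts K hW hG X ⟨L, hL⟩,
    Pool.Agent.Q17.ML2.real_group_of_cnt parts Pool.Agent.Q17.ML2.rg K hG X ⟨L, hL⟩⟩

theorem decided {n : ℕ} {G : Subgroup (Equiv.Perm (Fin n))} {X : Type} [Group X]
    (h1 : ∀ (K : Type) [Field K] [NumberField K], Realizable K X → Linear K n G)
    (h4 : ∀ (K : Type) [Field K] [NumberField K], MalleAt K n G → Realizable K X) :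
    Decided n G X := by
  have h3 : ∀ (K : Type) [Field K] [NumberField K], Linear K n G → MalleAt K n G :=
    fun K _ _ h => ⟨1, one_pos, asymptotic_of_linear h⟩
  refine ⟨⟨fun h K _ _ => h4 K ?_, fun h => ?_⟩, fun K _ _ =>
    ⟨⟨h4 K, fun h => h3 K (h1 K h)⟩, ⟨fun h => h4 K (h3 K h), h1 K⟩⟩⟩
  · obtain ⟨a, ha, h5⟩ := h
    exact ⟨a, ha, h5 K⟩
  · exact ⟨1, one_pos, fun K _ _ => asymptotic_of_linear (h1 K (h K))⟩

end proof

end Pool.Agent.Results.MP_a3214d_nt.Transpositions

open Pool.Agent.Results.MP_a3214d_nt.Transpositions in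
/-- (1) Under `Cond` Malle's conjecture for `G` and the realizability of `G` are equivalent, over all
number fields and over each number field. (2) Malle's conjecture holds for `C₂ ≀ S_m`, where `S_m`
acts on the `k`-tuples of different elements, `k ≥ 3`, `m ≥ 120 ^ 3`. (3) For every finite group `X`
with a subgroup `Y` with trivial normal core and `m ≥ [X : Y]`, `m ≥ 120 ^ 3`, Malle's conjecture for
`C₂ ≀ (X × S_m)`, acting on `X/Y × S_m × {0, 1}`, is equivalent to the realizability of `X`. -/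
theorem Pool.Agent.Results.MP_a3214d_nt.Transpositions.result :
    (∀ (n : ℕ) (G : Subgroup (Equiv.Perm (Fin n))) (B C : Setoid (Fin n)), 1 ≤ n → Cond G B C →
      Decided n G G) ∧
    (∀ m k : ℕ, 120 ^ 3 ≤ m → 3 ≤ k → k ≤ m →
      ∀ (n : ℕ) (G : Subgroup (Equiv.Perm (Fin n))),
      IsWreath (fun (σ : Equiv.Perm (Fin m)) (x : Fin k ↪ Fin m) => x.trans σ.toEmbedding) G →
      Malle n G) ∧
    (∀ (X : Type) [Group X] [Finite X] (Y : Subgroup X) (m : ℕ), Y.normalCore = ⊥ →
      120 ^ 3 ≤ m → Y.index ≤ m → ∀ (n : ℕ) (G : Subgroup (Equiv.Perm (Fin n))),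
      IsWreath (fun (h : X × Equiv.Perm (Fin m)) (x : (X ⧸ Y) × Equiv.Perm (Fin m)) =>
        (h.1 • x.1, h.2 * x.2)) G → Decided n G X) := by
  refine ⟨?_, ?_, ?_⟩
  · rintro n G B C hn ⟨h1, h2, h3, h4, h5, h6, h7, h8⟩
    obtain ⟨H, i1, i2, W, U, hG, hWU, hU, hnW, hUC, f, hf⟩ :=
      Pool.Agent.Q17.ML2.bl n G B C hn h1 h3 h5 h6 h4 h2 h8
    have hc : 8 * U.index * (U.index + 1) ≤ W.index := by
      rw [hUC]
      have e : 16 * Nat.card (Quotient C) * (Nat.card (Quotient C) + 1) =
        2 * (8 * Nat.card (Quotient C) * (Nat.card (Quotient C) + 1)) := by ring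
      omega
    have hW := Pool.Agent.Q17.ML2.core_bot hWU hU
    exact decided (fun K _ _ h =>
      of_real K hWU hU hc hG (Pool.Agent.Q24.ML.Real.of_surj f hf h))
      (fun K _ _ h => (of_malleAt K hW hG h).2)
  · intro m k hm hk hkm n G hG
    obtain ⟨W, U, hWU, hU, hc, hG'⟩ := Pool.Agent.Q17.ML2.tuples Pool.Agent.Q17.ML2.ex m k
      (le_trans (by norm_num) hm) hk hkm G hG
    exact ⟨1, one_pos, fun K _ _ => asymptotic_of_linear
      (of_real K hWU hU hc hG' (Pool.Agent.Q17.ML2.real_perm K m hm))⟩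
  · intro X _ _ Y m hY hm hYm n G hG
    obtain ⟨W, U, hWU, hU, hc, hG'⟩ := Pool.Agent.Q17.ML2.prods Pool.Agent.Q17.ML2.pr X Y m hY
      (le_trans (by norm_num) hm) hYm G hG
    have hW := Pool.Agent.Q17.ML2.core_bot hWU hU
    have hr := fun (K : Type) [Field K] [NumberField K] =>
      Pool.Agent.Q24.ML.real_iff_prod K (X := X) m hm
    exact decided (fun K _ _ h => of_real K hWU hU hc hG' ((hr K).2 h))
      (fun K _ _ h => (hr K).1 (of_malleAt K hW hG' h).1)
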